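import Pool.Agent.H810R3.Sx.Simplex

set_option autoImplicit false

/-!
A simplex with the affine Baire extension property whose set of extreme points is not Lindelöf.

The definitions used in the statement are in `Pool/Agent/H810R3/Sx/Defs.lean`.
The example: the probability measures on `ℝ → ℕ` (product sigma-algebra), embedded in a product
of lines through the integrals of suitable monomials.
-/

namespace Pool.Agent.Results.MP_8d13c5_an.NonLindelofSimplex

open Pool.Agent.H810R3.Sx

theorem result : ∃ (E : Type) (_ : AddCommGroup E) (_ : Module ℝ E) (_ : TopologicalSpace E)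
    (_ : IsTopologicalAddGroup E) (_ : ContinuousSMul ℝ E) (_ : LocallyConvexSpace ℝ E)
    (_ : T2Space E) (X : Set E), IsCompact X ∧ Convex ℝ X ∧ X.Nonempty ∧ IsSimplex X ∧
      HasAffineBaireExtension X ∧ ¬ LindelofSpace (X.extremePoints ℝ) :=
  ⟨(ℝ →₀ ℕ) → ℝ, inferInstance, inferInstance, inferInstance, inferInstance, inferInstance,
    inferInstance, inferInstance, XX ℝ, XX_compact, XX_convex, XX_nonempty, XX_simplex, XX_ext,
    not_lindelof⟩

end Pool.Agent.Results.MP_8d13c5_an.NonLindelofSimplex
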